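import Mathlib

namespace Pool.Agent.Results.MP_d302e1_nt.FortySeven

/-- Formulas built from copies of one constant with binary `+` and `×`. -/
inductive Expr : Type
  | leaf : Expr
  | add : Expr → Expr → Expr
  | mul : Expr → Expr → Expr

namespace Expr

/-- The value of a formula when the constant is `l`. -/
def eval (l : ℕ) : Expr → ℕ
  | leaf => l
  | add a b => a.eval l + b.eval l
  | mul a b => a.eval l * b.eval l

/-- The number of copies of the constant. -/
def size : Expr → ℕ
  | leaf => 1
  | add a b => a.size + b.size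
  | mul a b => a.size + b.size

/-- The number of summands which are the literal constant, when the formula is read as one
(associative) sum. -/
def ones : Expr → ℕ
  | leaf => 1
  | add a b => a.ones + b.ones
  | mul _ _ => 0

/-- No sum in the formula has four or more summands which are the literal constant. -/
def Reduced : Expr → Prop
  | leaf => True
  | add a b => a.ones + b.ones < 4 ∧ a.Reduced ∧ b.Reduced
  | mul a b => a.Reduced ∧ b.Reduced

end Expr

/-- The `l`-complexity: the least size of an `l`-expression with value `n`. -/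
noncomputable def complexity (l n : ℕ) : ℕ :=
  sInf {k | ∃ e : Expr, e.eval l = n ∧ e.size = k}

/-- `R` is a most efficient representation of `n`: a 1-expression with value `n` and least size. -/
def MostEfficient (n : ℕ) (R : Expr) : Prop :=
  R.eval 1 = n ∧ R.size = complexity 1 n

/-- The integer complexities of `0, …, 47` (with junk value `0` at `0`). -/
def cc (n : ℕ) : ℕ :=
  ([0, 1, 2, 3, 4, 5, 5, 6, 6, 6, 7, 8, 7, 8, 8, 8, 8, 9, 8, 9, 9, 9, 10, 11, 9, 10, 10, 9, 10, 11, 10, 11, 10, 11, 11, 11, 10, 11, 11, 11, 11, 12, 11, 12, 12, 11, 12, 13] : List ℕ).getD n 0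

/-- For `n ≤ 47`, all pairs (number of literal summands, value after doubling the ones) of the
reduced most efficient representations of `n`. -/
def DD (n : ℕ) : List (ℕ × ℕ) :=
  ([[],
  [(1, 2)],
  [(2, 4)],
  [(3, 6)],
  [(0, 16)],
  [(1, 18)],
  [(0, 24)],
  [(1, 26)],
  [(0, 64)],
  [(0, 36)],
  [(0, 72), (1, 38)],
  [(1, 74), (2, 40)],
  [(0, 96)],
  [(1, 98)],
  [(0, 104)],
  [(0, 108)],
  [(0, 256)],
  [(1, 258)],
  [(0, 144)],
  [(1, 146)],
  [(0, 152), (0, 288)],
  [(0, 156)],
  [(0, 160), (0, 296), (1, 158)],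
  [(1, 162), (1, 298), (2, 160)],
  [(0, 384)],
  [(0, 324), (1, 386)],
  [(0, 392)],
  [(0, 216)],
  [(0, 416), (1, 218)],
  [(1, 418), (2, 220)],
  [(0, 228), (0, 432)],
  [(1, 230), (1, 434)],
  [(0, 1024)],
  [(0, 240), (0, 444), (1, 1026)],
  [(0, 1032)],
  [(0, 468)],
  [(0, 576)],
  [(1, 578)],
  [(0, 584)],
  [(0, 588)],
  [(0, 608), (0, 1152)],
  [(1, 610), (1, 1154)],
  [(0, 624)],
  [(1, 626)],
  [(0, 632), (0, 640), (0, 1184)],
  [(0, 648)],
  [(1, 650)],
  [(2, 652)]] : List (List (ℕ × ℕ))).getD n []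

lemma eval_pos (e : Expr) : 1 ≤ e.eval 1 := by
  induction e with
  | leaf => simp [Expr.eval]
  | add a b iha ihb => simp only [Expr.eval]; omega
  | mul a b iha ihb => simp only [Expr.eval]; exact Nat.one_le_iff_ne_zero.mpr (by positivity)

lemma cc_add : ∀ x < 48, ∀ y < 48, 1 ≤ x → 1 ≤ y → x + y < 48 → cc (x + y) ≤ cc x + cc y := by
  decide +kernel

lemma cc_mul : ∀ x < 48, ∀ y < 48, 1 ≤ x → 1 ≤ y → x * y < 48 → cc (x * y) ≤ cc x + cc y := by
  decide +kernel

/-- Closure of the table under the sum of two most efficient representations. -/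
def AddOK (x y : ℕ) : Prop :=
  ∀ p ∈ DD x, ∀ q ∈ DD y, p.1 + q.1 < 4 → (p.1 + q.1, p.2 + q.2) ∈ DD (x + y)

instance (x y : ℕ) : Decidable (AddOK x y) := by unfold AddOK; infer_instance

/-- Closure of the table under the product of two most efficient representations. -/
def MulOK (x y : ℕ) : Prop :=
  ∀ p ∈ DD x, ∀ q ∈ DD y, (0, p.2 * q.2) ∈ DD (x * y)

instance (x y : ℕ) : Decidable (MulOK x y) := by unfold MulOK; infer_instance

lemma DD_add : ∀ x < 48, ∀ y < 48, (1 ≤ x ∧ 1 ≤ y ∧ x + y < 48 ∧ cc x + cc y = cc (x + y)) →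
    AddOK x y := by
  decide +kernel

lemma DD_mul : ∀ x < 48, ∀ y < 48, (1 ≤ x ∧ 1 ≤ y ∧ x * y < 48 ∧ cc x + cc y = cc (x * y)) →
    MulOK x y := by
  decide +kernel

lemma cc_le_size (e : Expr) : e.eval 1 < 48 → cc (e.eval 1) ≤ e.size := by
  induction e with
  | leaf => intro _; decide
  | add a b iha ihb =>
    intro h
    simp only [Expr.eval, Expr.size] at h ⊢
    have ha := eval_pos a
    have hb := eval_pos b
    have h1 := iha (by omega)
    have h2 := ihb (by omega)
    have h3 := cc_add (a.eval 1) (by omega) (b.eval 1) (by omega) ha hb h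
    omega
  | mul a b iha ihb =>
    intro h
    simp only [Expr.eval, Expr.size] at h ⊢
    have ha := eval_pos a
    have hb := eval_pos b
    have h4 : a.eval 1 ≤ a.eval 1 * b.eval 1 := Nat.le_mul_of_pos_right _ hb
    have h5 : b.eval 1 ≤ a.eval 1 * b.eval 1 := Nat.le_mul_of_pos_left _ ha
    have h1 := iha (by omega)
    have h2 := ihb (by omega)
    have h3 := cc_mul (a.eval 1) (by omega) (b.eval 1) (by omega) ha hb h
    omega

lemma mem_DD (e : Expr) : e.eval 1 < 48 → e.size = cc (e.eval 1) → e.Reduced →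
    (e.ones, e.eval 2) ∈ DD (e.eval 1) := by
  induction e with
  | leaf => intro _ _ _; decide
  | add a b iha ihb =>
    intro h hs hr
    simp only [Expr.eval, Expr.size, Expr.Reduced, Expr.ones] at h hs hr ⊢
    have ha := eval_pos a
    have hb := eval_pos b
    have ha' : a.eval 1 < 48 := by omega
    have hb' : b.eval 1 < 48 := by omega
    have h1 := cc_le_size a ha'
    have h2 := cc_le_size b hb'
    have h3 := cc_add (a.eval 1) ha' (b.eval 1) hb' ha hb h
    exact DD_add _ ha' _ hb' ⟨ha, hb, h, by omega⟩ _ (iha ha' (by omega) hr.2.1) _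
      (ihb hb' (by omega) hr.2.2) hr.1
  | mul a b iha ihb =>
    intro h hs hr
    simp only [Expr.eval, Expr.size, Expr.Reduced, Expr.ones] at h hs hr ⊢
    have ha := eval_pos a
    have hb := eval_pos b
    have h4 : a.eval 1 ≤ a.eval 1 * b.eval 1 := Nat.le_mul_of_pos_right _ hb
    have h5 : b.eval 1 ≤ a.eval 1 * b.eval 1 := Nat.le_mul_of_pos_left _ ha
    have ha' : a.eval 1 < 48 := by omega
    have hb' : b.eval 1 < 48 := by omega
    have h1 := cc_le_size a ha'
    have h2 := cc_le_size b hb'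
    have h3 := cc_mul (a.eval 1) ha' (b.eval 1) hb' ha hb h
    exact DD_mul _ ha' _ hb' ⟨ha, hb, h, by omega⟩ _ (iha ha' (by omega) hr.1) _
      (ihb hb' (by omega) hr.2)

lemma complexity_eq (n : ℕ) (hn : n < 48) (R : Expr) (h1 : R.eval 1 = n) (h2 : R.size = cc n) :
    complexity 1 n = cc n := by
  apply le_antisymm
  · exact Nat.sInf_le ⟨R, h1, h2⟩
  · refine le_csInf ⟨R.size, R, h1, rfl⟩ ?_
    rintro k ⟨e, he, rfl⟩
    have := cc_le_size e (by omega)
    rwa [he] at this

/-- `11 = (1+1+1)(1+1+1)+1+1`. -/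
def R11 : Expr :=
  .add (.mul (.add .leaf (.add .leaf .leaf)) (.add .leaf (.add .leaf .leaf))) (.add .leaf .leaf)

/-- `47 = (1+1+1)(1+1+1)((1+1)(1+1)+1)+1+1`. -/
def R47 : Expr :=
  (.add (.mul (.mul (.add .leaf (.add .leaf .leaf)) (.add .leaf (.add .leaf .leaf))) (.add (.mul (.add .leaf .leaf) (.add .leaf .leaf)) .leaf)) (.add .leaf .leaf))

/-- A 2-expression of size 6 with value `40`. -/
def E40 : Expr :=
  .mul .leaf (.mul .leaf (.add .leaf (.mul .leaf (.mul .leaf .leaf))))

/-- A 2-expression of size 12 with value `652`. -/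
def E652 : Expr :=
  (.mul .leaf (.add .leaf (.mul .leaf (.add .leaf (.mul .leaf (.mul .leaf (.mul .leaf (.mul .leaf (.add .leaf (.mul .leaf (.mul .leaf .leaf)))))))))))

/-- The asserted equality fails.  Already `n = 11` has a reduced most efficient representation
for which it fails, and for `n = 47` it fails for every reduced most efficient representation
(and there is one). -/
theorem result :
    (∃ R : Expr, MostEfficient 11 R ∧ R.Reduced ∧ complexity 2 (R.eval 2) < complexity 1 11) ∧
    (∃ R : Expr, MostEfficient 47 R ∧ R.Reduced) ∧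
    ∀ R : Expr, MostEfficient 47 R → R.Reduced →
      complexity 2 (R.eval 2) < complexity 1 47 := by
  have h11 : complexity 1 11 = 8 := complexity_eq 11 (by norm_num) R11 (by decide) (by decide)
  have h47 : complexity 1 47 = 13 := complexity_eq 47 (by norm_num) R47 (by decide) (by decide)
  have h40 : complexity 2 40 ≤ 6 := Nat.sInf_le ⟨E40, by decide, by decide⟩
  have h652 : complexity 2 652 ≤ 12 := Nat.sInf_le ⟨E652, by decide, by decide⟩
  refine ⟨⟨R11, ⟨by decide, ?_⟩, ?_, ?_⟩, ⟨R47, ⟨by decide, ?_⟩, ?_⟩, ?_⟩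
  · rw [h11]; decide
  · simp [R11, Expr.Reduced, Expr.ones]
  · rw [h11, show R11.eval 2 = 40 by decide]
    omega
  · rw [h47]; decide
  · simp [R47, Expr.Reduced, Expr.ones]
  · rintro R ⟨hR, hs⟩ hred
    rw [h47] at hs ⊢
    have hmem := mem_DD R (by omega) (by rw [hs, hR]; decide) hred
    rw [hR] at hmem
    have hDD : DD 47 = [(2, 652)] := by decide
    rw [hDD, List.mem_singleton, Prod.mk.injEq] at hmem
    rw [hmem.2]
    omega

end Pool.Agent.Results.MP_d302e1_nt.FortySeven
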